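import Pool.Agent.P.MP_8dda54_gt.GenMain

set_option autoImplicit false

namespace Pool.Agent.Results.MP_8dda54_gt.BeyondHalfBall
open Pool.Agent.P.MP_8dda54_gt.Gen

/-- `(ρ, x)` is an `S`-copy in `K`: `ρ` is a rotation and `ρ(S) + x ⊆ K`. -/
def IsCopy {d : ℕ} (S K : Set (EuclideanSpace ℝ (Fin d))) (ρ : Matrix (Fin d) (Fin d) ℝ)
    (x : EuclideanSpace ℝ (Fin d)) : Prop :=
  ρ ∈ Matrix.specialOrthogonalGroup (Fin d) ℝ ∧ ∀ v ∈ S, Matrix.toEuclideanLin ρ v + x ∈ K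

/-- In every convex `S`-Kakeya body one can choose one copy for each rotation, continuously. -/
def SelectionProperty {d : ℕ} (S : Set (EuclideanSpace ℝ (Fin d))) : Prop :=
  ∀ K : Set (EuclideanSpace ℝ (Fin d)), Convex ℝ K → IsCompact K →
    (∀ ρ ∈ Matrix.specialOrthogonalGroup (Fin d) ℝ, ∃ x, IsCopy S K ρ x) →
    ∃ σ : Matrix.specialOrthogonalGroup (Fin d) ℝ → EuclideanSpace ℝ (Fin d),
      Continuous σ ∧ ∀ ρ : Matrix.specialOrthogonalGroup (Fin d) ℝ, IsCopy S K ρ (σ ρ)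

/-- The Kakeya rotation property. -/
def RotationProperty {d : ℕ} (S : Set (EuclideanSpace ℝ (Fin d))) : Prop :=
  ∀ K : Set (EuclideanSpace ℝ (Fin d)), Convex ℝ K → IsCompact K →
    (∀ ρ ∈ Matrix.specialOrthogonalGroup (Fin d) ℝ, ∃ x, IsCopy S K ρ x) →
    ∀ ρ₀ x₀ ρ₁ x₁, IsCopy S K ρ₀ x₀ → IsCopy S K ρ₁ x₁ →
      ∃ (γ : unitInterval → Matrix (Fin d) (Fin d) ℝ)
        (δ : unitInterval → EuclideanSpace ℝ (Fin d)),
        Continuous γ ∧ Continuous δ ∧ γ 0 = ρ₀ ∧ δ 0 = x₀ ∧ γ 1 = ρ₁ ∧ δ 1 = x₁ ∧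
        ∀ t, IsCopy S K (γ t) (δ t)

/-- In every dimension `d ≥ 2`, each set strictly inside the unit ball that contains the ball with
a cap smaller than a half ball cut off has interior points, is not a ball, and has the selection
property and the Kakeya rotation property; the truncated ball itself is such a convex body. -/
theorem result (d : ℕ) (hd : 2 ≤ d) (e : EuclideanSpace ℝ (Fin d)) (he : ‖e‖ = 1) (h : ℝ)
    (h0 : 0 < h) (h1 : h < 1) (C : Set (EuclideanSpace ℝ (Fin d)))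
    (hC : C = {v | ‖v‖ ≤ 1 ∧ inner ℝ e v ≤ h}) :
    (Convex ℝ C ∧ IsCompact C ∧ C ⊂ Metric.closedBall 0 1) ∧
    ∀ S : Set (EuclideanSpace ℝ (Fin d)), C ⊆ S → S ⊂ Metric.closedBall 0 1 →
      (interior S).Nonempty ∧
      (∀ (c : EuclideanSpace ℝ (Fin d)) (r : ℝ), S ≠ Metric.closedBall c r) ∧
      SelectionProperty S ∧ RotationProperty S := by
  subst hC
  refine ⟨cap_facts he h1, fun S hS hSB => ?_⟩
  have hcap : ∀ v : E d, ‖v‖ ≤ 1 → inner ℝ e v ≤ h → v ∈ S := fun v a b => hS ⟨a, b⟩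
  have hB : ∀ v ∈ S, ‖v‖ ≤ 1 := fun v hv => mem_closedBall_zero_iff.mp (hSB.1 hv)
  refine ⟨interior_ne he h0 hcap, not_ball hd h0 hcap hB hSB.ne, fun K hK hKc hall => ?_,
    fun K hK hKc hall ρ₀ x₀ ρ₁ x₁ h₀ h₁ => ?_⟩
  · obtain ⟨σ, hσ, hσ'⟩ := selection_SO hd he h0 hcap hB hK hKc
      (fun A hA => (hall A hA).imp fun x hx => hx.2)
    exact ⟨σ, hσ, fun ρ => ⟨ρ.2, hσ' ρ⟩⟩
  · obtain ⟨p, hp⟩ := joined_copies hd he h0 hcap hB hK hKc
      (fun A hA => (hall A hA).imp fun x hx => hx.2) (p := (ρ₀, x₀)) (q := (ρ₁, x₁)) h₀ h₁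
    exact ⟨fun t => (p t).1, fun t => (p t).2, continuous_fst.comp p.continuous,
      continuous_snd.comp p.continuous, by simp, by simp, by simp, by simp, fun t => hp t⟩

/-- The case `d = 3`, `e` the first basis vector, `h = 3/4`, `S = C`. -/
theorem three_quarters : ∀ S : Set (EuclideanSpace ℝ (Fin 3)), S = {v | ‖v‖ ≤ 1 ∧ v 0 ≤ 3 / 4} →
    Convex ℝ S ∧ IsCompact S ∧ (interior S).Nonempty ∧
    (∀ (c : EuclideanSpace ℝ (Fin 3)) (r : ℝ), S ≠ Metric.closedBall c r) ∧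
    RotationProperty S := by
  intro S hS
  obtain ⟨⟨h1, h2, h3⟩, h4⟩ := result 3 (by norm_num) (EuclideanSpace.single 0 1) (by simp) (3 / 4)
    (by norm_num) (by norm_num) S (by simpa [EuclideanSpace.inner_single_left] using hS)
  obtain ⟨h5, h6, -, h7⟩ := h4 S subset_rfl h3
  exact ⟨h1, h2, h5, h6, h7⟩

end Pool.Agent.Results.MP_8dda54_gt.BeyondHalfBall
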